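import Pool.Agent.Helper24.HW.Stmts

set_option autoImplicit false

namespace Pool.Agent.Helper11.HW

open Equiv Equiv.Perm Pool.Agent.Helper24.HW Pool.Agent.Helper24.HWPub Pool.Agent.Helper98.Gn

section

variable {Φ : Type} {u v : Perm Φ}

theorem dih_sq {g : Perm Φ} (h : ∀ x, g (g x) = x) : g * g = 1 := by
  ext x; simpa using h x

theorem dih_semi (hu : ∀ x, u (u x) = x) (hv : ∀ x, v (v x) = x) :
    SemiconjBy v (u * v) (u * v)⁻¹ := by
  have h1 := dih_sq hu
  have h2 := dih_sq hv
  have h3 : (u * v)⁻¹ = v * u := by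
    rw [mul_inv_rev, inv_eq_of_mul_eq_one_left h1, inv_eq_of_mul_eq_one_left h2]
  rw [h3]
  change v * (u * v) = v * u * v
  rw [mul_assoc]

theorem dih_comm (hu : ∀ x, u (u x) = x) (hv : ∀ x, v (v x) = x) (n : ℤ) (x : Φ) :
    v (((u * v) ^ n) x) = ((u * v) ^ (-n)) (v x) := by
  have h := (dih_semi hu hv).zpow_right n
  have h2 : v * (u * v) ^ n = (u * v) ^ (-n) * v := by
    rw [zpow_neg, ← inv_zpow]; exact h
  have h3 := congrArg (fun g : Perm Φ => g x) h2
  simpa using h3

theorem dih_uz (hv : ∀ x, v (v x) = x) (z : Φ) : (u * v) (v z) = u z := by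
  simp [Perm.mul_apply, hv]

theorem dih_not (hu : ∀ x, u (u x) = x) (hv : ∀ x, v (v x) = x) (fu : ∀ x, u x ≠ x)
    (fv : ∀ x, v x ≠ x) (x : Φ) : ¬ SameCycle (u * v) x (v x) := by
  rintro ⟨n, hn⟩
  rcases Int.even_or_odd' n with ⟨p, hp | hp⟩
  · have h1 := dih_comm hu hv p x
    rw [← hn, hp] at h1
    apply fv (((u * v) ^ p) x)
    rw [h1, ← Perm.mul_apply, ← zpow_add]
    congr 2; ring
  · have h1 := dih_comm hu hv p x
    rw [← hn, hp] at h1
    have h2 : v (((u * v) ^ p) x) = (u * v) (((u * v) ^ p) x) := by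
      rw [h1, ← Perm.mul_apply, ← Perm.mul_apply, ← zpow_add, ← zpow_one_add]
      congr 2; ring
    apply fu (v (((u * v) ^ p) x))
    conv_rhs => rw [h2]
    rw [Perm.mul_apply]

theorem dih_orb (hu : ∀ x, u (u x) = x) (hv : ∀ x, v (v x) = x) (x y : Φ) :
    y ∈ MulAction.orbit (Subgroup.closure {u, v}) x ↔
      SameCycle (u * v) x y ∨ SameCycle (u * v) (v x) y := by
  have hS : ∀ z, (SameCycle (u * v) x z ∨ SameCycle (u * v) (v x) z) →
      (SameCycle (u * v) x (v z) ∨ SameCycle (u * v) (v x) (v z)) := by
    rintro z (⟨n, hn⟩ | ⟨n, hn⟩)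
    · right
      refine ⟨-n, ?_⟩
      rw [← dih_comm hu hv, hn]
    · left
      refine ⟨-n, ?_⟩
      have := dih_comm hu hv n (v x)
      rw [hv, hn] at this
      exact this.symm
  have hU : ∀ z, (SameCycle (u * v) x z ∨ SameCycle (u * v) (v x) z) →
      (SameCycle (u * v) x (u z) ∨ SameCycle (u * v) (v x) (u z)) := by
    intro z hz
    have h1 : SameCycle (u * v) (v z) (u z) := ⟨1, by rw [zpow_one]; exact dih_uz hv z⟩
    rcases hS z hz with h | h
    · exact Or.inl (h.trans h1)
    · exact Or.inr (h.trans h1)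
  constructor
  · rintro ⟨⟨g, hg⟩, rfl⟩
    have key : ∀ z, (SameCycle (u * v) x (g z) ∨ SameCycle (u * v) (v x) (g z)) ↔
        (SameCycle (u * v) x z ∨ SameCycle (u * v) (v x) z) := by
      induction hg using Subgroup.closure_induction with
      | mem g hg =>
        intro z
        rcases hg with rfl | hg
        · constructor
          · intro h
            have := hU _ h
            rwa [hu] at this
          · exact hU z
        · rw [Set.mem_singleton_iff] at hg
          subst hg
          constructor
          · intro h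
            have := hS _ h
            rwa [hv] at this
          · exact hS z
      | one => intro z; rfl
      | mul a b _ _ iha ihb => intro z; rw [Perm.mul_apply, iha, ihb]
      | inv a _ iha =>
        intro z
        rw [← iha]
        simp
    exact (key x).2 (Or.inl (SameCycle.refl _ _))
  · have hw : u * v ∈ Subgroup.closure ({u, v} : Set (Perm Φ)) :=
      Subgroup.mul_mem _ (Subgroup.subset_closure (by simp)) (Subgroup.subset_closure (by simp))
    have hvm : v ∈ Subgroup.closure ({u, v} : Set (Perm Φ)) :=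
      Subgroup.subset_closure (by simp)
    rintro (⟨n, hn⟩ | ⟨n, hn⟩)
    · exact ⟨⟨(u * v) ^ n, Subgroup.zpow_mem _ hw n⟩, hn⟩
    · exact ⟨⟨(u * v) ^ n * v, Subgroup.mul_mem _ (Subgroup.zpow_mem _ hw n) hvm⟩, hn⟩

theorem dih_num [Finite Φ] (hu : ∀ x, u (u x) = x) (hv : ∀ x, v (v x) = x)
    (fu : ∀ x, u x ≠ x) (fv : ∀ x, v x ≠ x) : 2 * num u v = cyc (u * v) := by
  classical
  let f : Quotient (SameCycle.setoid (u * v)) →
      MulAction.orbitRel.Quotient (Subgroup.closure ({u, v} : Set (Perm Φ))) Φ :=
    Quotient.lift (fun x => (Quotient.mk _ x)) (fun a b hab => by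
      apply Quotient.sound
      change a ∈ MulAction.orbit (Subgroup.closure ({u, v} : Set (Perm Φ))) b
      rw [dih_orb hu hv]
      exact Or.inl (SameCycle.symm hab))
  have hfib : ∀ b, Nat.card {a // f a = b} = 2 := by
    intro b
    induction b using Quotient.inductionOn with
    | _ x =>
      rw [Nat.card_eq_two_iff]
      refine ⟨⟨Quotient.mk _ x, rfl⟩, ⟨Quotient.mk _ (v x), ?_⟩, ?_, ?_⟩
      · apply Quotient.sound
        change v x ∈ MulAction.orbit (Subgroup.closure ({u, v} : Set (Perm Φ))) x
        rw [dih_orb hu hv]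
        exact Or.inr (SameCycle.refl _ _)
      · intro h
        have h2 := congrArg Subtype.val h
        have h3 : SameCycle (u * v) x (v x) := Quotient.exact h2
        exact dih_not hu hv fu fv x h3
      · rw [Set.eq_univ_iff_forall]
        rintro ⟨a, ha⟩
        induction a using Quotient.inductionOn with
        | _ y =>
          have h1 : y ∈ MulAction.orbit (Subgroup.closure ({u, v} : Set (Perm Φ))) x :=
            Quotient.exact ha
          rw [dih_orb hu hv] at h1
          rcases h1 with h1 | h1
          · left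
            apply Subtype.ext
            exact Quotient.sound (SameCycle.symm h1)
          · right
            apply Subtype.ext
            exact Quotient.sound (SameCycle.symm h1)
  have hcard : Nat.card (Quotient (SameCycle.setoid (u * v))) =
      Nat.card (Σ b, {a // f a = b}) := Nat.card_congr (Equiv.sigmaFiberEquiv f).symm
  unfold cyc num
  haveI : Finite (MulAction.orbitRel.Quotient (Subgroup.closure ({u, v} : Set (Perm Φ))) Φ) :=
    Quotient.finite _
  haveI := Fintype.ofFinite
    (MulAction.orbitRel.Quotient (Subgroup.closure ({u, v} : Set (Perm Φ))) Φ)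
  rw [hcard, Nat.card_sigma]
  rw [Finset.sum_congr rfl (fun b _ => hfib b)]
  simp [mul_comm]

end

/-- two fixed point free involutions -/
theorem DIH : ST_DIH := by
  intro Φ _ u v hu hv fu fv
  exact ⟨dih_num hu hv fu fv, dih_not hu hv fu fv, dih_orb hu hv⟩

end Pool.Agent.Helper11.HW
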