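import Pool.Agent.Helper26.HW.Stmts

/-! # HW, row PCN: close pairs are counted by the short range part of the repulsion -/

set_option autoImplicit false

namespace Pool.Agent.Helper11.HW

open MeasureTheory Filter Pool.Agent.Helper95 Pool.Agent.Helper95.PW Pool.Agent.Helper95.LN
  Pool.Agent.Helper95.CF
open Pool.Agent.Helper95.HV Pool.Agent.Helper26.HW

theorem pcn_comm (x y : R3) : nr (x - y) = nr (y - x) := by
  unfold nr
  congr 1
  simp only [Pi.sub_apply]
  ring

/-- row PCN -/
theorem PCN (hKK : ST_KK) : ST_PCN := by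
  intro d n M X x hd hx
  obtain ⟨f, hf⟩ : ∃ f : Fin n → Fin n → ℝ, f = fun k l =>
      if nr (x k - x l) < d / 32 then (1 : ℝ) else 0 := ⟨_, rfl⟩
  have hfs : ∀ k l, f k l = f l k := by
    intro k l
    rw [hf]
    show (if nr (x k - x l) < d / 32 then (1 : ℝ) else 0) =
      if nr (x l - x k) < d / 32 then (1 : ℝ) else 0
    rw [pcn_comm]
  have hf0 : ∀ k l, 0 ≤ f k l := by
    intro k l
    rw [hf]
    show 0 ≤ (if nr (x k - x l) < d / 32 then (1 : ℝ) else 0)
    split_ifs <;> norm_num
  have hf1 : ∀ k l, f k l ≤ 1 := by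
    intro k l
    rw [hf]
    show (if nr (x k - x l) < d / 32 then (1 : ℝ) else 0) ≤ 1
    split_ifs <;> norm_num
  have e0 : ∑ k, ∑ l, (if nr (x k - x l) < d / 32 then (1 : ℝ) else 0) = ∑ k, ∑ l, f k l := by
    rw [hf]
  obtain ⟨S, hS⟩ : ∃ S : ℝ, S = ∑ k, ∑ l, (if k < l then f k l else 0) := ⟨_, rfl⟩
  have hS2 : ∑ k, ∑ l, (if l < k then f k l else 0) = S := by
    rw [hS, Finset.sum_comm]
    refine Finset.sum_congr rfl fun k _ => Finset.sum_congr rfl fun l _ => ?_
    rw [hfs l k]
  have h1 : ∑ k, ∑ l, f k l ≤ (n : ℝ) + S + S := by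
    have h2 : ∀ k l, f k l ≤ (if k = l then (1 : ℝ) else 0) + (if k < l then f k l else 0) +
        (if l < k then f k l else 0) := by
      intro k l
      rcases lt_trichotomy k l with h | h | h
      · rw [if_neg h.ne, if_pos h, if_neg h.not_gt]
        linarith
      · rw [if_pos h, if_neg h.not_lt, if_neg h.not_gt]
        linarith [hf1 k l]
      · rw [if_neg h.ne', if_neg h.not_gt, if_pos h]
        linarith
    calc ∑ k, ∑ l, f k l ≤ ∑ k, ∑ l, ((if k = l then (1 : ℝ) else 0) +
          (if k < l then f k l else 0) + (if l < k then f k l else 0)) :=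
          Finset.sum_le_sum fun k _ => Finset.sum_le_sum fun l _ => h2 k l
      _ = (n : ℝ) + S + S := by
          simp only [Finset.sum_add_distrib]
          rw [hS2, ← hS]
          simp
  have h3 : S ≤ d / 16 * Rem (d / 8) x := by
    rw [hS]
    unfold Rem
    rw [Finset.mul_sum]
    refine Finset.sum_le_sum fun k _ => ?_
    rw [Finset.mul_sum]
    refine Finset.sum_le_sum fun l _ => ?_
    by_cases hkl : k < l
    · rw [if_pos hkl, if_pos hkl]
      obtain ⟨_, k2, k3, k4⟩ := hKK (d / 8) (x k - x l) (by positivity)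
      have hne := hx.1 k l hkl.ne
      have hn0 : 0 ≤ nr (x k - x l) := Real.sqrt_nonneg _
      have hn1 : 0 < nr (x k - x l) := lt_of_le_of_ne hn0 hne.symm
      have k5 := k2 hne
      rw [hf]
      show (if nr (x k - x l) < d / 32 then (1 : ℝ) else 0) ≤
        d / 16 * (1 / nr (x k - x l) - Kf (d / 8) (x k - x l))
      split_ifs with h
      · have a1 : 32 / d ≤ 1 / nr (x k - x l) := by
          rw [div_le_div_iff₀ hd hn1]
          linarith
        have a2 : 2 / (d / 8) = 16 / d := by
          field_simp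
          norm_num
        rw [a2] at k4
        have a3 : 16 / d ≤ 1 / nr (x k - x l) - Kf (d / 8) (x k - x l) := by
          have a4 : 32 / d = 16 / d + 16 / d := by ring
          linarith
        calc (1 : ℝ) = d / 16 * (16 / d) := by field_simp
          _ ≤ _ := mul_le_mul_of_nonneg_left a3 (by positivity)
      · exact mul_nonneg (by positivity) (by linarith)
    · rw [if_neg hkl, if_neg hkl, mul_zero]
  rw [e0]
  linarith

end Pool.Agent.Helper11.HW
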